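import Pool.Agent.R161.Bohr.Basic

/-!
MP_0fda35_co, BO-SOL: the mean on the group of solutions.
-/

set_option autoImplicit false

namespace Pool.Agent.R68.Bohr

open Finset
open scoped ComplexConjugate
open Pool.Agent.R161.Bohr

universe u

/-- the solutions with one coordinate zero -/
def HS {G : Type u} [AddCommGroup G] {d : ℕ} (φ : Fin d → G →+ G) (j0 : Fin d) :
    AddSubgroup (Fin d → G) where
  carrier := {h | h j0 = 0 ∧ ∑ j, φ j (h j) = 0}
  zero_mem' := by simp
  add_mem' := by
    rintro a b ⟨ha, ha'⟩ ⟨hb, hb'⟩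
    refine ⟨by simp [ha, hb], ?_⟩
    simp only [Pi.add_apply, map_add, Finset.sum_add_distrib, ha', hb', add_zero]
  neg_mem' := by
    rintro a ⟨ha, ha'⟩
    refine ⟨by simp [ha], ?_⟩
    simp only [Pi.neg_apply, map_neg, Finset.sum_neg_distrib, ha', neg_zero]

section
variable {G : Type u} [AddCommGroup G] {d : ℕ} (m : St G) (φ : Fin d → G →+ G) (j0 : Fin d)
  (μ : St (HS φ j0))

/-- the inner mean -/
noncomputable def inn (F : (Fin d → G) → ℂ) (h : HS φ j0) : ℂ :=
  m (fun a => F (fun j => a + (h : Fin d → G) j))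

theorem inn_bdd {F : (Fin d → G) → ℂ} (hF : Bdd F) : Bdd (inn m φ j0 F) := by
  obtain ⟨C, hC⟩ := hF
  exact ⟨C, fun h => m.norm_le_of fun a => hC _⟩

theorem bdd_in {F : (Fin d → G) → ℂ} (hF : Bdd F) (h : Fin d → G) :
    Bdd (fun a : G => F (fun j => a + h j)) := by
  obtain ⟨C, hC⟩ := hF
  exact ⟨C, fun a => hC _⟩

theorem bddR_in {F : (Fin d → G) → ℝ} (hF : BddR F) (h : Fin d → G) :
    BddR (fun a : G => F (fun j => a + h j)) := by
  obtain ⟨C, hC⟩ := hF
  exact ⟨C, fun a => hC _⟩

theorem inn_real {F : (Fin d → G) → ℝ} (hF : BddR F) (h : HS φ j0) :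
    inn m φ j0 (fun x => (F x : ℂ)) h =
      ((m.re (fun a => F (fun j => a + (h : Fin d → G) j)) : ℝ) : ℂ) :=
  m.ofReal (bddR_in hF (h : Fin d → G))

theorem re_bddR {F : (Fin d → G) → ℝ} (hF : BddR F) :
    BddR (fun h : HS φ j0 => m.re (fun a => F (fun j => a + (h : Fin d → G) j))) := by
  obtain ⟨C, hC⟩ := hF
  refine ⟨C, fun h => ?_⟩
  have hb : BddR (fun a : G => F (fun j => a + (h : Fin d → G) j)) := ⟨C, fun a => hC _⟩
  rw [abs_le]
  exact ⟨m.le_re hb fun a => (abs_le.1 (hC _)).1, m.re_le hb fun a => (abs_le.1 (hC _)).2⟩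

/-- the mean on the solutions -/
noncomputable def sol : St (Fin d → G) where
  toFun F := μ (inn m φ j0 F)
  add' F F' hF hF' := by
    have h1 : inn m φ j0 (fun x => F x + F' x) = fun h => inn m φ j0 F h + inn m φ j0 F' h := by
      funext h
      exact m.map_add (bdd_in hF _) (bdd_in hF' _)
    rw [h1]
    exact μ.map_add (inn_bdd m φ j0 hF) (inn_bdd m φ j0 hF')
  smul' c F hF := by
    have h1 : inn m φ j0 (fun x => c * F x) = fun h => c * inn m φ j0 F h := by
      funext h
      exact m.map_cmul c (bdd_in hF _)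
    rw [h1]
    exact μ.map_cmul c (inn_bdd m φ j0 hF)
  real' F hF := by
    have h1 : inn m φ j0 (fun x => (F x : ℂ)) = fun h : HS φ j0 =>
        ((m.re (fun a => F (fun j => a + (h : Fin d → G) j)) : ℝ) : ℂ) :=
      funext fun h => inn_real m φ j0 hF h
    rw [h1]
    exact μ.real' _ (re_bddR m φ j0 hF)
  nonneg' F hF h0 := by
    have h1 : inn m φ j0 (fun x => (F x : ℂ)) = fun h : HS φ j0 =>
        ((m.re (fun a => F (fun j => a + (h : Fin d → G) j)) : ℝ) : ℂ) :=
      funext fun h => inn_real m φ j0 hF h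
    rw [h1]
    exact μ.nonneg' _ (re_bddR m φ j0 hF) fun h => m.re_nonneg (bddR_in hF _) fun a => h0 _
  one' := by
    have h1 : inn m φ j0 (fun _ => 1) = fun _ => 1 := funext fun h => m.map_one
    rw [h1]
    exact μ.map_one

theorem sol_apply (F : (Fin d → G) → ℂ) : sol m φ j0 μ F = μ (inn m φ j0 F) := rfl

end

theorem s_sol : S_mean.{u} → S_sol.{u} := by
  intro hmean G _ m hm d hd φ hφ
  let j0 : Fin d := ⟨0, hd⟩
  obtain ⟨μ, hμ⟩ := hmean (HS φ j0)
  have hsum : ∀ (a : G) (h : Fin d → G), ∑ j, φ j (a + h j) = ∑ j, φ j (h j) := by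
    intro a h
    simp only [map_add, Finset.sum_add_distrib, hφ a, zero_add]
  refine ⟨sol m φ j0 μ, ?_, ?_, ?_, ?_⟩
  · intro s hs F hF
    rw [sol_apply, sol_apply]
    let s' : HS φ j0 := ⟨fun j => s j - s j0, by
      refine ⟨by simp, ?_⟩
      have h1 := hsum (- s j0) s
      rw [hs] at h1
      rw [← h1]
      refine Finset.sum_congr rfl fun j _ => ?_
      congr 1
      abel_nf⟩
    have h1 : inn m φ j0 (fun x => F (x + s)) = fun h => inn m φ j0 F (h + s') := by
      funext h
      unfold inn
      have h2 : (fun a : G => (fun x => F (x + s)) (fun j => a + (h : Fin d → G) j)) =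
          fun a => (fun b => F (fun j => b + ((h + s' : HS φ j0) : Fin d → G) j)) (a + s j0) := by
        funext a
        simp only
        congr 1
        funext j
        simp only [Pi.add_apply, AddSubgroup.coe_add, s']
        abel
      rw [h2]
      exact hm _ (s j0) (bdd_in hF _)
    rw [h1]
    exact hμ _ s' (inn_bdd m φ j0 hF)
  · intro j f hf
    rw [sol_apply]
    have h1 : inn m φ j0 (fun x => f (x j)) = fun _ => m f := by
      funext h
      exact hm f ((h : Fin d → G) j) hf
    rw [h1]
    exact μ.map_const _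
  · intro W hW hinv j f hf
    rw [sol_apply, sol_apply]
    have hW1 : ∀ (h : Fin d → G) (a : G), W (fun j => a + h j) = W h := by
      intro h a
      rw [← hinv a h]
      congr 1
      funext j
      exact add_comm _ _
    have h1 : inn m φ j0 (fun x => W x * f (x j)) = fun h : HS φ j0 => W (h : Fin d → G) * m f := by
      funext h
      unfold inn
      have h2 : (fun a : G => (fun x : Fin d → G => W x * f (x j))
          (fun j => a + (h : Fin d → G) j)) =
          fun a => W (h : Fin d → G) * f (a + (h : Fin d → G) j) := by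
        funext a
        simp only
        rw [hW1]
      rw [h2, m.map_cmul _ (hf.comp fun a => a + (h : Fin d → G) j)]
      rw [hm f ((h : Fin d → G) j) hf]
    have h2 : inn m φ j0 W = fun h : HS φ j0 => W (h : Fin d → G) := by
      funext h
      unfold inn
      simp only [hW1]
      exact m.map_const _
    rw [h1, h2]
    exact μ.map_mulc _ (hW.comp fun h : HS φ j0 => (h : Fin d → G))
  · intro F hF h0
    rw [sol_apply]
    have h1 : inn m φ j0 F = fun _ => 0 := by
      funext h
      unfold inn
      have h2 : (fun a : G => F (fun j => a + (h : Fin d → G) j)) = fun _ => 0 := by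
        funext a
        refine h0 _ ?_
        rw [hsum]
        exact h.2.2
      rw [h2]
      exact m.map_zero
    rw [h1]
    exact μ.map_zero

end Pool.Agent.R68.Bohr
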