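import Pool.Agent.R161.Bohr.Basic

/-!
MP_0fda35_co, BO-TEL: the error terms (telescoping).
-/

set_option autoImplicit false

namespace Pool.Agent.R68.Bohr

open Finset
open scoped ComplexConjugate
open Pool.Agent.R161.Bohr

universe u

theorem kp_nonneg (p : ℕ) (z : Circle) : 0 ≤ kp p z := by
  unfold kp
  positivity

theorem Wt_nonneg {G : Type u} [AddCommGroup G] {d : ℕ} (j1 : Fin d)
    (Ω : Finset (AddChar G Circle)) (p : ℕ) (x : Fin d → G) : 0 ≤ Wt j1 Ω p x :=
  Finset.prod_nonneg fun _ _ => Finset.prod_nonneg fun _ _ => kp_nonneg p _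

theorem Wt_inv {G : Type u} [AddCommGroup G] {d : ℕ} (j1 : Fin d)
    (Ω : Finset (AddChar G Circle)) (p : ℕ) (a : G) (x : Fin d → G) :
    Wt j1 Ω p (fun j => x j + a) = Wt j1 Ω p x := by
  unfold Wt
  simp only [add_sub_add_right_eq_sub]

theorem s_tel : S_wt.{u} → S_tel.{u} := by
  intro hwt G _ m hm d N φ M hM hC j1 Ω p f f1 P ε ρ hf hf1 hP hε hρ hcoef hn2
  obtain ⟨_, R, _, v, θ, hv0, hv1, hW⟩ := hwt G m hm d φ M hM j1 Ω p
  obtain ⟨W, hWdef⟩ : ∃ W : (Fin d → G) → ℝ, W = Wt j1 Ω p := ⟨_, rfl⟩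
  rw [← hWdef]
  have hW' : ∀ x, (W x : ℂ) = ∑ r, (v r : ℂ) * (θ r x : ℂ) := by
    rw [hWdef]; exact hW
  have hW0 : ∀ x, 0 ≤ W x := by
    rw [hWdef]; exact Wt_nonneg j1 Ω p
  have hWinv : ∀ (a : G) x, W (fun j => x j + a) = W x := by
    rw [hWdef]; exact Wt_inv j1 Ω p
  have hWb : BddR W := by
    refine ⟨1, fun x => ?_⟩
    rw [← Real.norm_eq_abs, ← Complex.norm_real, hW' x]
    refine (norm_sum_le _ _).trans ?_
    rw [← hv1]
    refine Finset.sum_le_sum fun r _ => ?_
    rw [norm_mul, Complex.norm_real, Real.norm_eq_abs, abs_of_nonneg (hv0 r), Circle.norm_coe,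
      mul_one]
  have hfb : Bdd (fun x => (f x : ℂ)) := (BddR.of_mem hf).ofReal
  have hf1b : Bdd (fun x => (f1 x : ℂ)) := (BddR.of_mem hf1).ofReal
  have hPf1 : m.re (fun x => ‖P x - (f1 x : ℂ)‖) ≤ ρ := by
    have h1 := m.re_norm_sq_le (hP.sub hf1b)
    have h2 : (m.re fun x => ‖P x - (f1 x : ℂ)‖) ^ 2 ≤ ρ ^ 2 := h1.trans hn2
    exact le_of_sq_le_sq h2 hρ
  have hcast : ∀ g : G → ℝ, (fun x : Fin d → G => ((W x * ∏ j, g (x j) : ℝ) : ℂ)) =
      fun x => (W x : ℂ) * ∏ j, (fun y => (g y : ℂ)) (x j) := by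
    intro g
    funext x
    push_cast
    rfl
  have hbd : ∀ g : G → ℝ, BddR g → BddR (fun x : Fin d → G => W x * ∏ j, g (x j)) :=
    fun g hg => hWb.mul (BddR.prod _ fun j _ => hg.comp fun x : Fin d → G => x j)
  have e1 := M.ofReal (hbd f (BddR.of_mem hf))
  have e2 := M.ofReal (hbd f1 (BddR.of_mem hf1))
  rw [hcast] at e1 e2
  have h0 := hybrid M (fun x => (W x : ℂ)) hWb.ofReal (fun _ y => (f y : ℂ))
    (fun _ y => (f1 y : ℂ)) (fun _ => hfb) (fun _ => hf1b) (N * ε + M.re W * ρ) ?_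
  · rw [e1, e2, ← Complex.ofReal_sub, Complex.norm_real, Real.norm_eq_abs] at h0
    exact h0
  · intro i g hg hgi
    have hgb : ∀ j, Bdd (g j) := by
      intro j
      by_cases hj : j = i
      · rw [hj, hgi]
        exact hfb.sub hf1b
      · rcases hg j hj with h | h <;> rw [h]
        · exact hfb
        · exact hf1b
    have hg1 : ∀ j, j ≠ i → ∀ x, ‖g j x‖ ≤ 1 := by
      intro j hj x
      rcases hg j hj with h | h <;> rw [h]
      · rw [Complex.norm_real, Real.norm_eq_abs, abs_of_nonneg (hf x).1]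
        exact (hf x).2
      · rw [Complex.norm_real, Real.norm_eq_abs, abs_of_nonneg (hf1 x).1]
        exact (hf1 x).2
    obtain ⟨A, hA⟩ : ∃ A : Fin d → G → ℂ, A = Function.update g i (fun x => (f x : ℂ) - P x) :=
      ⟨_, rfl⟩
    obtain ⟨B, hB⟩ : ∃ B : Fin d → G → ℂ, B = Function.update g i (fun x => P x - (f1 x : ℂ)) :=
      ⟨_, rfl⟩
    have hAi : A i = fun x => (f x : ℂ) - P x := by rw [hA, Function.update_self]
    have hBi : B i = fun x => P x - (f1 x : ℂ) := by rw [hB, Function.update_self]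
    have hAj : ∀ j, j ≠ i → A j = g j := fun j hj => by rw [hA, Function.update_of_ne hj]
    have hBj : ∀ j, j ≠ i → B j = g j := fun j hj => by rw [hB, Function.update_of_ne hj]
    have hAb : ∀ j, Bdd (A j) := by
      intro j
      by_cases hj : j = i
      · rw [hj, hAi]; exact hfb.sub hP
      · rw [hAj j hj]; exact hgb j
    have hBb : ∀ j, Bdd (B j) := by
      intro j
      by_cases hj : j = i
      · rw [hj, hBi]; exact hP.sub hf1b
      · rw [hBj j hj]; exact hgb j
    have hprodb : ∀ g : Fin d → G → ℂ, (∀ j, Bdd (g j)) →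
        Bdd (fun x : Fin d → G => ∏ j, g j (x j)) :=
      fun g hg => Bdd.prod _ fun j _ => (hg j).comp fun x : Fin d → G => x j
    have hsplit : (fun x : Fin d → G => (W x : ℂ) * ∏ j, g j (x j)) = fun x =>
        (W x : ℂ) * ∏ j, A j (x j) + (W x : ℂ) * ∏ j, B j (x j) := by
      funext x
      rw [← mul_add]
      congr 1
      rw [← Finset.mul_prod_erase univ (fun j => g j (x j)) (mem_univ i),
        ← Finset.mul_prod_erase univ (fun j => A j (x j)) (mem_univ i),
        ← Finset.mul_prod_erase univ (fun j => B j (x j)) (mem_univ i)]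
      have e1 : ∏ j ∈ univ.erase i, A j (x j) = ∏ j ∈ univ.erase i, g j (x j) :=
        Finset.prod_congr rfl fun j hj => by rw [hAj j (Finset.ne_of_mem_erase hj)]
      have e2 : ∏ j ∈ univ.erase i, B j (x j) = ∏ j ∈ univ.erase i, g j (x j) :=
        Finset.prod_congr rfl fun j hj => by rw [hBj j (Finset.ne_of_mem_erase hj)]
      rw [e1, e2, hAi, hBi, hgi]
      ring
    rw [hsplit, M.map_add (hWb.ofReal.mul (hprodb A hAb)) (hWb.ofReal.mul (hprodb B hBb))]
    refine (norm_add_le _ _).trans (add_le_add ?_ ?_)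
    · -- the first part: characters and C42
      have h1 : (fun x : Fin d → G => (W x : ℂ) * ∏ j, A j (x j)) = fun x =>
          ∑ r, (v r : ℂ) * ((θ r x : ℂ) * ∏ j, A j (x j)) := by
        funext x
        rw [hW' x, Finset.sum_mul]
        refine Finset.sum_congr rfl fun r _ => ?_
        ring
      have h2 : ∀ r, Bdd (fun x : Fin d → G => (θ r x : ℂ) * ∏ j, A j (x j)) :=
        fun r => (Bdd.char (θ r)).mul (hprodb A hAb)
      rw [h1, M.map_sum _ (fun r _ => (h2 r).cmul _)]
      refine (norm_sum_le _ _).trans ?_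
      have h3 : ∀ r ∈ (univ : Finset R), ‖M (fun x : Fin d → G => (v r : ℂ) *
          ((θ r x : ℂ) * ∏ j, A j (x j)))‖ ≤ v r * (N * ε) := by
        intro r _
        rw [M.map_cmul _ (h2 r), norm_mul, Complex.norm_real, Real.norm_eq_abs,
          abs_of_nonneg (hv0 r)]
        refine mul_le_mul_of_nonneg_left ?_ (hv0 r)
        refine hC (θ r) A hAb i ε hε (fun ξ => by rw [hAi]; exact hcoef ξ) fun j hj => ?_
        rw [hAj j hj]
        have h4 := m.n2_le_of (hg1 j hj)
        rwa [one_pow] at h4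
      refine (Finset.sum_le_sum h3).trans (le_of_eq ?_)
      rw [← Finset.sum_mul, hv1, one_mul]
    · -- the second part
      refine (M.norm_le (hWb.ofReal.mul (hprodb B hBb))).trans ?_
      have hPb : BddR (fun y => ‖P y - (f1 y : ℂ)‖) := (hP.sub hf1b).norm
      have h1 : M.re (fun x => ‖(W x : ℂ) * ∏ j, B j (x j)‖) ≤
          M.re (fun x => W x * (fun y => ‖P y - (f1 y : ℂ)‖) (x i)) := by
        refine M.re_mono (hWb.ofReal.mul (hprodb B hBb)).norm
          (hWb.mul (hPb.comp fun x : Fin d → G => x i)) fun x => ?_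
        rw [norm_mul, Complex.norm_real, Real.norm_eq_abs, abs_of_nonneg (hW0 x)]
        refine mul_le_mul_of_nonneg_left ?_ (hW0 x)
        rw [← Finset.mul_prod_erase univ (fun j => B j (x j)) (mem_univ i), norm_mul, hBi]
        have h2 : ‖∏ j ∈ univ.erase i, B j (x j)‖ ≤ 1 := by
          rw [norm_prod]
          refine Finset.prod_le_one (fun j _ => norm_nonneg _) fun j hj => ?_
          have hj' := Finset.ne_of_mem_erase hj
          rw [hBj j hj']
          exact hg1 j hj' _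
        exact mul_le_of_le_one_right (norm_nonneg _) h2
      refine h1.trans ?_
      rw [hM.prod_re hWb hWinv i hPb]
      exact mul_le_mul_of_nonneg_left hPf1 (M.re_nonneg hWb hW0)

end Pool.Agent.R68.Bohr
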